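import Mathlib
import Pool.Agent.U307.NIL.Stm

/-!
# Project NIL, package TEN (helper402)

The representation `ρ ⊗ ρ̄` on the completed tensor product `K ⊗ K` (with a conjugation `J` of `K` in the second
factor), its vectors as compact operators.
-/

set_option autoImplicit false

open Filter Topology UniformSpace
open scoped InnerProductSpace TensorProduct ComplexConjugate

namespace Pool.Agent.U402.NIL.TEN

/-- a conjugation (antiunitary map) of a complex Hilbert space -/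
theorem exists_conj (K : Type) [NormedAddCommGroup K] [InnerProductSpace ℂ K] [CompleteSpace K] :
    ∃ J : K ≃ₗᵢ⋆[ℂ] K, ∀ a b, ⟪J a, J b⟫_ℂ = ⟪b, a⟫_ℂ := by
  obtain ⟨w, b, hb⟩ := exists_hilbertBasis ℂ K
  let S : lp (fun _ : w => ℂ) 2 ≃ₗᵢ⋆[ℂ] lp (fun _ : w => ℂ) 2 := starₗᵢ ℂ
  have hS : ∀ f g : lp (fun _ : w => ℂ) 2, ⟪S f, S g⟫_ℂ = ⟪g, f⟫_ℂ := by
    intro f g
    rw [lp.inner_eq_tsum, lp.inner_eq_tsum]
    refine tsum_congr fun i => ?_
    change ⟪(star f : lp (fun _ : w => ℂ) 2) i, (star g : lp (fun _ : w => ℂ) 2) i⟫_ℂ = _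
    rw [lp.star_apply, lp.star_apply]
    simp [mul_comm]
  refine ⟨b.repr.trans (S.trans b.repr.symm), fun x y => ?_⟩
  simp only [LinearIsometryEquiv.trans_apply, LinearIsometryEquiv.inner_map_map]
  rw [hS, LinearIsometryEquiv.inner_map_map]

section

variable {K : Type} [NormedAddCommGroup K] [InnerProductSpace ℂ K]

/-- `U ⊗ J U J⁻¹` -/
noncomputable def t0 (J : K ≃ₗᵢ⋆[ℂ] K) (U : K ≃ₗᵢ[ℂ] K) : (K ⊗[ℂ] K) ≃ₗᵢ[ℂ] (K ⊗[ℂ] K) :=
  TensorProduct.congrIsometry U (J.symm.trans (U.trans J))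

theorem t0_tmul (J : K ≃ₗᵢ⋆[ℂ] K) (U : K ≃ₗᵢ[ℂ] K) (u v : K) :
    t0 J U (u ⊗ₜ[ℂ] v) = (U u) ⊗ₜ[ℂ] (J (U (J.symm v))) := rfl

theorem dense_compl : DenseRange
    ((Completion.toComplₗᵢ (𝕜 := ℂ) (E := K ⊗[ℂ] K)).toLinearMap) :=
  Completion.denseRange_coe

/-- its extension to the completion -/
noncomputable def t1 (J : K ≃ₗᵢ⋆[ℂ] K) (U : K ≃ₗᵢ[ℂ] K) :
    Completion (K ⊗[ℂ] K) ≃ₗᵢ[ℂ] Completion (K ⊗[ℂ] K) :=
  (t0 J U).toLinearEquiv.extendOfIsometry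
    (Completion.toComplₗᵢ (𝕜 := ℂ) (E := K ⊗[ℂ] K)).toLinearMap
    (Completion.toComplₗᵢ (𝕜 := ℂ) (E := K ⊗[ℂ] K)).toLinearMap
    dense_compl dense_compl (fun x => by simp)

theorem t1_coe (J : K ≃ₗᵢ⋆[ℂ] K) (U : K ≃ₗᵢ[ℂ] K) (x : K ⊗[ℂ] K) :
    t1 J U (x : Completion (K ⊗[ℂ] K)) = ((t0 J U x : K ⊗[ℂ] K) : Completion (K ⊗[ℂ] K)) :=
  LinearEquiv.extendOfIsometry_eq (t0 J U).toLinearEquiv
    (Completion.toComplₗᵢ (𝕜 := ℂ) (E := K ⊗[ℂ] K)).toLinearMap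
    (Completion.toComplₗᵢ (𝕜 := ℂ) (E := K ⊗[ℂ] K)).toLinearMap
    dense_compl dense_compl (fun x => by simp) x

theorem t0_one (J : K ≃ₗᵢ⋆[ℂ] K) : t0 J (1 : K ≃ₗᵢ[ℂ] K) = 1 := by
  ext x
  induction x using TensorProduct.induction_on with
  | zero => simp
  | tmul u v => rw [t0_tmul]; simp
  | add x y hx hy => rw [map_add, map_add, hx, hy]

theorem t0_mul (J : K ≃ₗᵢ⋆[ℂ] K) (U W : K ≃ₗᵢ[ℂ] K) : t0 J (U * W) = t0 J U * t0 J W := by
  ext x
  induction x using TensorProduct.induction_on with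
  | zero => simp
  | tmul u v =>
    rw [t0_tmul, LinearIsometryEquiv.coe_mul, LinearIsometryEquiv.coe_mul, Function.comp_apply, Function.comp_apply,
      Function.comp_apply, t0_tmul, t0_tmul, LinearIsometryEquiv.symm_apply_apply]
  | add x y hx hy => rw [map_add, map_add, hx, hy]

theorem t1_ext {T T' : Completion (K ⊗[ℂ] K) ≃ₗᵢ[ℂ] Completion (K ⊗[ℂ] K)}
    (h : ∀ x : K ⊗[ℂ] K, T (x : Completion (K ⊗[ℂ] K)) = T' (x : Completion (K ⊗[ℂ] K))) : T = T' := by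
  ext x
  induction x using Completion.induction_on with
  | hp => exact isClosed_eq T.continuous T'.continuous
  | ih a => exact h a

/-- the representation on the completion -/
noncomputable def tau {M : Type} [Group M] (J : K ≃ₗᵢ⋆[ℂ] K) (ρ : M →* (K ≃ₗᵢ[ℂ] K)) :
    M →* (Completion (K ⊗[ℂ] K) ≃ₗᵢ[ℂ] Completion (K ⊗[ℂ] K)) where
  toFun x := t1 J (ρ x)
  map_one' := t1_ext fun x => by
    rw [t1_coe, map_one, t0_one]; rfl
  map_mul' a b := t1_ext fun x => by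
    rw [t1_coe, map_mul, t0_mul, LinearIsometryEquiv.coe_mul, LinearIsometryEquiv.coe_mul, Function.comp_apply,
      Function.comp_apply, t1_coe, t1_coe]

theorem tau_coe {M : Type} [Group M] (J : K ≃ₗᵢ⋆[ℂ] K) (ρ : M →* (K ≃ₗᵢ[ℂ] K)) (m : M) (x : K ⊗[ℂ] K) :
    tau J ρ m (x : Completion (K ⊗[ℂ] K)) = ((t0 J (ρ m) x : K ⊗[ℂ] K) : Completion (K ⊗[ℂ] K)) :=
  t1_coe J (ρ m) x

/-- `u ⊗ v ↦ (b ↦ ⟪J⁻¹ v, b⟫ u)` -/
noncomputable def X0 (J : K ≃ₗᵢ⋆[ℂ] K) : (K ⊗[ℂ] K) →ₗ[ℂ] (K →L[ℂ] K) :=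
  TensorProduct.lift (LinearMap.mk₂ ℂ (fun u v => (innerSL ℂ (J.symm v)).smulRight u)
    (fun u u' v => by ext b; simp)
    (fun c u v => by
      ext b
      change ⟪J.symm v, b⟫_ℂ • (c • u) = c • (⟪J.symm v, b⟫_ℂ • u)
      rw [smul_comm])
    (fun u v v' => by
      ext b
      change ⟪J.symm (v + v'), b⟫_ℂ • u = ⟪J.symm v, b⟫_ℂ • u + ⟪J.symm v', b⟫_ℂ • u
      rw [map_add, inner_add_left, add_smul])
    (fun c u v => by
      ext b
      change ⟪J.symm (c • v), b⟫_ℂ • u = c • (⟪J.symm v, b⟫_ℂ • u)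
      rw [map_smulₛₗ, inner_smul_left, mul_smul]
      simp))

theorem X0_tmul (J : K ≃ₗᵢ⋆[ℂ] K) (u v b : K) :
    X0 J (u ⊗ₜ[ℂ] v) b = ⟪J.symm v, b⟫_ℂ • u := by
  simp [X0]

theorem inner_X0 (J : K ≃ₗᵢ⋆[ℂ] K) (hJ : ∀ a b, ⟪J a, J b⟫_ℂ = ⟪b, a⟫_ℂ) (a b : K) (t : K ⊗[ℂ] K) :
    ⟪a, X0 J t b⟫_ℂ = ⟪a ⊗ₜ[ℂ] (J b), t⟫_ℂ := by
  induction t using TensorProduct.induction_on with
  | zero => simp
  | tmul u v =>
    rw [X0_tmul, inner_smul_right, TensorProduct.inner_tmul]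
    have := hJ b (J.symm v)
    rw [LinearIsometryEquiv.apply_symm_apply] at this
    rw [this]; ring
  | add x y hx hy => rw [map_add, add_apply, inner_add_right, inner_add_right, hx, hy]

theorem norm_X0_le (J : K ≃ₗᵢ⋆[ℂ] K) (hJ : ∀ a b, ⟪J a, J b⟫_ℂ = ⟪b, a⟫_ℂ) (t : K ⊗[ℂ] K) :
    ‖X0 J t‖ ≤ 1 * ‖t‖ := by
  rw [one_mul]
  refine ContinuousLinearMap.opNorm_le_bound _ (norm_nonneg _) fun b => ?_
  rcases eq_or_ne (X0 J t b) 0 with h | h
  · rw [h, norm_zero]; positivity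
  · have h1 : ‖X0 J t b‖ ^ 2 ≤ ‖X0 J t b‖ * ‖b‖ * ‖t‖ := by
      have h2 := inner_X0 J hJ (X0 J t b) b t
      have h3 : ‖⟪X0 J t b, X0 J t b⟫_ℂ‖ = ‖X0 J t b‖ ^ 2 := by
        rw [inner_self_eq_norm_sq_to_K (𝕜 := ℂ)]; simp
      rw [← h3, h2]
      have h5 := norm_inner_le_norm (𝕜 := ℂ) ((X0 J t b) ⊗ₜ[ℂ] (J b)) t
      rw [TensorProduct.norm_tmul, LinearIsometryEquiv.norm_map] at h5
      exact h5
    have h4 : 0 < ‖X0 J t b‖ := norm_pos_iff.2 h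
    rw [sq, mul_assoc] at h1
    have := le_of_mul_le_mul_left h1 h4
    linarith [mul_comm ‖b‖ ‖t‖]

/-- the continuous version -/
noncomputable def X1 (J : K ≃ₗᵢ⋆[ℂ] K) (hJ : ∀ a b, ⟪J a, J b⟫_ℂ = ⟪b, a⟫_ℂ) :
    (K ⊗[ℂ] K) →L[ℂ] (K →L[ℂ] K) :=
  (X0 J).mkContinuous 1 (norm_X0_le J hJ)

/-- the operator of a vector of the completion -/
noncomputable def X2 [CompleteSpace K] (J : K ≃ₗᵢ⋆[ℂ] K) (hJ : ∀ a b, ⟪J a, J b⟫_ℂ = ⟪b, a⟫_ℂ) :
    Completion (K ⊗[ℂ] K) →L[ℂ] (K →L[ℂ] K) :=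
  (X1 J hJ).extend Completion.toComplL

theorem X2_coe [CompleteSpace K] (J : K ≃ₗᵢ⋆[ℂ] K) (hJ : ∀ a b, ⟪J a, J b⟫_ℂ = ⟪b, a⟫_ℂ) (t : K ⊗[ℂ] K) :
    X2 J hJ (t : Completion (K ⊗[ℂ] K)) = X0 J t :=
  ContinuousLinearMap.extend_eq (X1 J hJ) (e := Completion.toComplL) Completion.denseRange_coe
    (Completion.isUniformInducing_coe _) t

theorem compact_X0 (J : K ≃ₗᵢ⋆[ℂ] K) (t : K ⊗[ℂ] K) : IsCompactOperator (X0 J t) := by
  induction t using TensorProduct.induction_on with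
  | zero => rw [map_zero]; exact isCompactOperator_zero
  | tmul u v =>
    have h1 : IsCompactOperator (ContinuousLinearMap.id ℂ ℂ) := isCompactOperator_id
    have h2 := (h1.comp_clm (innerSL ℂ (J.symm v))).clm_comp ((ContinuousLinearMap.id ℂ ℂ).smulRight u)
    have h3 : (⇑(X0 J (u ⊗ₜ[ℂ] v)) : K → K) =
        ⇑((ContinuousLinearMap.id ℂ ℂ).smulRight u) ∘ (⇑(ContinuousLinearMap.id ℂ ℂ) ∘ ⇑(innerSL ℂ (J.symm v))) := by
      funext b
      rw [X0_tmul]; rfl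
    rw [h3]
    exact h2
  | add x y hx hy =>
    rw [map_add]
    exact hx.add hy

theorem inner_X2 [CompleteSpace K] (J : K ≃ₗᵢ⋆[ℂ] K) (hJ : ∀ a b, ⟪J a, J b⟫_ℂ = ⟪b, a⟫_ℂ) (a b : K)
    (F : Completion (K ⊗[ℂ] K)) :
    ⟪a, X2 J hJ F b⟫_ℂ = ⟪((a ⊗ₜ[ℂ] (J b) : K ⊗[ℂ] K) : Completion (K ⊗[ℂ] K)), F⟫_ℂ := by
  induction F using Completion.induction_on with
  | hp =>
    refine isClosed_eq ?_ ?_
    · exact continuous_const.inner (((X2 J hJ).continuous).clm_apply continuous_const)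
    · exact continuous_const.inner continuous_id
  | ih t => rw [X2_coe, inner_X0 J hJ, Completion.inner_coe]

theorem comm_X2 [CompleteSpace K] (J : K ≃ₗᵢ⋆[ℂ] K) (hJ : ∀ a b, ⟪J a, J b⟫_ℂ = ⟪b, a⟫_ℂ) (U : K ≃ₗᵢ[ℂ] K)
    (F : Completion (K ⊗[ℂ] K)) (h : K) :
    X2 J hJ (t1 J U F) (U h) = U (X2 J hJ F h) := by
  induction F using Completion.induction_on with
  | hp =>
    refine isClosed_eq ?_ ?_
    · exact ((X2 J hJ).continuous.comp (t1 J U).continuous).clm_apply continuous_const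
    · exact U.continuous.comp (((X2 J hJ).continuous).clm_apply continuous_const)
  | ih t =>
    rw [t1_coe, X2_coe, X2_coe]
    induction t using TensorProduct.induction_on with
    | zero => simp
    | tmul u v =>
      rw [t0_tmul, X0_tmul, X0_tmul, LinearIsometryEquiv.symm_apply_apply, LinearIsometryEquiv.inner_map_map, map_smul]
    | add x y hx hy =>
      rw [map_add, map_add, map_add, add_apply, add_apply, map_add, hx, hy]

end

theorem t_TEN : Pool.Agent.U307.NIL.S_TEN := by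
  intro M _ K _ _ _ ρ
  obtain ⟨J, hJ⟩ := exists_conj K
  refine ⟨Completion (K ⊗[ℂ] K), inferInstance, inferInstance, inferInstance, tau J ρ,
    fun ξ => ((ξ ⊗ₜ[ℂ] (J ξ) : K ⊗[ℂ] K) : Completion (K ⊗[ℂ] K)), fun F => X2 J hJ F, ?_, ?_, ?_, ?_, ?_⟩
  · intro x y ξ
    rw [tau_coe, tau_coe, Completion.inner_coe, t0_tmul, t0_tmul, LinearIsometryEquiv.symm_apply_apply,
      TensorProduct.inner_tmul, hJ, ← inner_conj_symm (ρ y ξ) (ρ x ξ), Complex.mul_conj, Complex.normSq_eq_norm_sq]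
  · rintro x ⟨c, hc⟩
    refine t1_ext fun t => ?_
    change tau J ρ x _ = _
    rw [tau_coe]
    have : t0 J (ρ x) t = t := by
      induction t using TensorProduct.induction_on with
      | zero => simp
      | tmul u v =>
        rcases eq_or_ne u 0 with rfl | hu
        · simp
        · have h1 : ‖c‖ = 1 := by
            have h2 := (ρ x).norm_map u
            rw [hc, norm_smul] at h2
            have h3 : 0 < ‖u‖ := norm_pos_iff.2 hu
            field_simp at h2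
            exact h2
          rw [t0_tmul, hc, hc, map_smulₛₗ, LinearIsometryEquiv.apply_symm_apply, TensorProduct.smul_tmul_smul,
            Complex.mul_conj, Complex.normSq_eq_norm_sq, h1]
          simp
      | add x y hx hy => rw [map_add, hx, hy]
    rw [this]; rfl
  · intro F
    induction F using Completion.induction_on with
    | hp =>
      exact (isClosed_setOfPred_isCompactOperator (𝕜₁ := ℂ) (σ₁₂ := RingHom.id ℂ) (M₁ := K) (M₂ := K)).preimage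
        (X2 J hJ).continuous
    | ih t =>
      change IsCompactOperator (X2 J hJ (t : Completion (K ⊗[ℂ] K)))
      rw [X2_coe]; exact compact_X0 J t
  · intro F x hF h
    have := comm_X2 J hJ (ρ x) F h
    change X2 J hJ (tau J ρ x F) (ρ x h) = _ at this
    rw [hF] at this
    exact this
  · intro F ξ hF
    have h1 := inner_X2 J hJ ξ ξ F
    change X2 J hJ F = 0 at hF
    rw [hF] at h1
    rw [← inner_conj_symm, ← h1]
    simp

end Pool.Agent.U402.NIL.TEN
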